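import Pool.Agent.MWGN.StmtsC

set_option autoImplicit false

/-!
# Squad MWGN, row MCF (helper46): covering with letters `d j`
-/

namespace Pool.Agent.MWGN.H46

open Pool.Agent.Helper14_MV Pool.Agent.Helper2_MV Pool.Agent.MWGN
open Pool.Agent.MWK (pre Gw)

theorem gh_split (g h : ℕ → List ℕ) {i n : ℕ} (hi : i < n) :
    ∃ W, gh g h n = gh g h i ++ (g i ++ (h i ++ W)) := by
  induction n with
  | zero => omega
  | succ n ih =>
    rw [gh_succ]
    rcases Nat.lt_or_ge i n with h1 | h1
    · obtain ⟨W, hW⟩ := ih h1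
      refine ⟨W ++ (g n ++ h n), ?_⟩
      rw [hW]
      simp only [List.append_assoc]
    · have h2 : i = n := by omega
      subst h2
      exact ⟨[], by rw [List.append_nil]⟩

theorem gh_split2 (g h : ℕ → List ℕ) {i n : ℕ} (hi : i + 1 < n) :
    ∃ W, gh g h n = gh g h i ++ (g i ++ (h i ++ (g (i + 1) ++ W))) := by
  obtain ⟨W, hW⟩ := gh_split g h hi
  refine ⟨h (i + 1) ++ W, ?_⟩
  rw [hW, gh_succ]
  simp only [List.append_assoc]

/-- row MCF -/
theorem mcf : McfStmt := by
  intro n A M R u l d g h b hu hM hb1 hbR hl hd hg hh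
  -- `b` is not in `A`, `M`
  have hRb : 0 < R.count b := List.count_pos_iff.2 hbR
  have hAM : A.count b = 0 ∧ M.count b = 0 := by
    rw [hu, List.count_append, List.count_append] at hb1
    omega
  have hbA : b ∉ A := List.count_eq_zero.1 hAM.1
  have hbM : b ∉ M := List.count_eq_zero.1 hAM.2
  have hpb : pre u b = A ++ (M ++ pre R b) := by
    rw [hu, MWK.pre_append hbA, MWK.pre_append hbM]
  have hlM : ∀ i < n, l i ∈ M := fun i hi =>
    List.count_pos_iff.1 (by rw [(hl i hi).2.1]; exact Nat.one_pos)
  have hpl : ∀ i < n, pre u (l i) = A ++ pre M (l i) := by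
    intro i hi
    rw [hu, MWK.pre_append (hl i hi).1, MWK.pre_append_mem (hlM i hi)]
  have hlu : ∀ i < n, l i ∈ u := by
    intro i hi
    rw [hu]
    exact List.mem_append_right _ (List.mem_append_left _ (hlM i hi))
  -- order
  have ho1 : ∀ j, j + 1 < n → l j ∈ pre u (l (j + 1)) := fun j hj =>
    MWK.pre_of_count (hlu j (by omega)) (hd j hj).1
  have ho : ∀ i k, i + k + 1 < n → l i ∈ pre u (l (i + k + 1)) := by
    intro i k
    induction k with
    | zero => exact fun hk => ho1 i hk
    | succ k ih => exact fun hk => MWK.pre_trans (ih (by omega)) (ho1 (i + k + 1) hk)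
  have ho' : ∀ i j, i < j → j < n → l i ∈ pre u (l j) := by
    intro i j hij hj
    have := ho i (j - i - 1) (by omega)
    rwa [show i + (j - i - 1) + 1 = j by omega] at this
  have hoM : ∀ i j, i < j → j < n → l i ∈ pre M (l j) := by
    intro i j hij hj
    have h1 := ho' i j hij hj
    rw [hpl j hj, List.mem_append] at h1
    rcases h1 with h1 | h1
    · exact absurd h1 (hl i (by omega)).1
    · exact h1
  have hgM : ∀ i < n, ∀ c ∈ g i, c ∈ M := by
    intro i hi c hc
    rw [hM, mem_gh]
    exact ⟨i, hi, Or.inl hc⟩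
  -- (a)
  have ha : ∀ i < n, ∀ j < n, l j ∈ g i → ∀ j', j' + 1 < n → d j' ∉ g i := by
    intro i hi j hj hji j' hj' hd'
    obtain ⟨R1, R2, hR⟩ := hg i hi
    have h1 : (pre R b).count (l j) = 0 := by
      have h2 := (hl j hj).2.2
      unfold nn at h2
      rw [hpb, List.count_append, List.count_append, (hl j hj).2.1] at h2
      omega
    have h3 : (pre R b).count (d j') = R.count (d j') := by
      have h2 := (hd j' hj').2
      unfold nn at h2
      rw [hpb, hu, List.count_append, List.count_append, List.count_append,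
        List.count_append] at h2
      omega
    by_cases hb' : b ∈ R1
    · rw [hR, MWK.pre_append_mem hb', List.count_append, List.count_append] at h3
      have h4 := MWK.count_pre_le R1 (d j') b
      have h5 := List.count_pos_iff.2 hd'
      omega
    · have hbg : b ∉ g i := fun h' => hbM (hgM i hi b h')
      rw [hR, MWK.pre_append hb', MWK.pre_append hbg, List.count_append,
        List.count_append] at h1
      have h5 := List.count_pos_iff.2 hji
      omega
  -- pins
  have hpin : ∀ i < n, ∀ j j', j < j' → j' < n → ¬ (l j ∈ g i ∧ l j' ∈ g i) := by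
    rintro i hi j j' hjj hj' ⟨h1, h2⟩
    have hj : j < n := by omega
    obtain ⟨W, hW⟩ := gh_split g h hi
    have hnU : ∀ k < n, l k ∈ g i → l k ∉ gh g h i := by
      intro k hk hkg hkU
      have h3 := (hl k hk).2.1
      rw [hM, hW, List.count_append, List.count_append] at h3
      have h4 := List.count_pos_iff.2 hkg
      have h5 := List.count_pos_iff.2 hkU
      omega
    have hp : ∀ k < n, l k ∈ g i → pre u (l k) = A ++ (gh g h i ++ pre (g i) (l k)) := by
      intro k hk hkg
      rw [hpl k hk, hM, hW, MWK.pre_append (hnU k hk hkg), MWK.pre_append_mem hkg]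
    have hdj : d j ∉ g i := ha i hi j hj h1 j (by omega)
    have h6 : nn u (d j) (l (j + 1)) ≤ nn u (d j) (l j') := by
      rcases Nat.lt_or_ge (j + 1) j' with h7 | h7
      · exact MWK.count_pre_mono (ho' (j + 1) j' h7 hj') (d j)
      · have h8 : j + 1 = j' := by omega
        rw [h8]
    have h7 := (hd j (by omega)).1
    have h8 : nn u (d j) (l j) < nn u (d j) (l j') := lt_of_lt_of_le h7 h6
    unfold nn at h8
    rw [hp j hj h1, hp j' hj' h2] at h8
    simp only [List.count_append] at h8
    have h9 : (pre (g i) (l j')).count (d j) = 0 :=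
      List.count_eq_zero.2 fun h' => hdj (MWK.mem_of_mem_pre h')
    omega
  have hc1 : ∀ i < n, l i ∈ g i := by
    refine cov (g := g) (h := h) (L := l) (N := n) ?_ ?_ ?_ hpin
    · intro i hi
      rw [← hM]
      exact (hl i hi).2.1
    · intro i j hij hj
      rw [← hM]
      exact hoM i j hij hj
    · intro i hi j hj hc
      have h1 := hh i hi _ hc
      have h2 := (hl j hj).2.1
      omega
  refine ⟨hc1, ?_⟩
  intro j hj
  by_contra hdh
  obtain ⟨W, hW⟩ := gh_split2 g h hj
  have hj0 : j < n := by omega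
  have hd0 : d j ∉ g j := ha j hj0 j hj0 (hc1 j hj0) j hj
  have hd1 : d j ∉ g (j + 1) := ha (j + 1) hj (j + 1) hj (hc1 (j + 1) hj) j hj
  have hm0 := List.count_pos_iff.2 (hc1 j hj0)
  have hm1 := List.count_pos_iff.2 (hc1 (j + 1) hj)
  have hu0 : l j ∉ gh g h j := by
    intro hc
    have h3 := (hl j hj0).2.1
    rw [hM, hW, List.count_append, List.count_append] at h3
    have h5 := List.count_pos_iff.2 hc
    omega
  have hz : (gh g h j).count (l (j + 1)) = 0 ∧ (g j).count (l (j + 1)) = 0 ∧
      (h j).count (l (j + 1)) = 0 := by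
    have h3 := (hl (j + 1) hj).2.1
    rw [hM, hW] at h3
    simp only [List.count_append] at h3
    omega
  have hp0 : pre u (l j) = A ++ (gh g h j ++ pre (g j) (l j)) := by
    rw [hpl j hj0, hM, hW, MWK.pre_append hu0, MWK.pre_append_mem (hc1 j hj0)]
  have hp1 : pre u (l (j + 1)) =
      A ++ (gh g h j ++ (g j ++ (h j ++ pre (g (j + 1)) (l (j + 1))))) := by
    rw [hpl (j + 1) hj, hM, hW, MWK.pre_append (List.count_eq_zero.1 hz.1),
      MWK.pre_append (List.count_eq_zero.1 hz.2.1), MWK.pre_append (List.count_eq_zero.1 hz.2.2),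
      MWK.pre_append_mem (hc1 (j + 1) hj)]
  have h7 := (hd j hj).1
  unfold nn at h7
  rw [hp0, hp1] at h7
  simp only [List.count_append] at h7
  have h8 : (g j).count (d j) = 0 := List.count_eq_zero.2 hd0
  have h9 : (h j).count (d j) = 0 := List.count_eq_zero.2 hdh
  have h10 : (pre (g (j + 1)) (l (j + 1))).count (d j) = 0 :=
    List.count_eq_zero.2 fun h' => hd1 (MWK.mem_of_mem_pre h')
  omega

end Pool.Agent.MWGN.H46
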